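import Pool.Agent.Lib.MP_0430e4_lc.Sym.Elementary

/-!
Translation invariant codes on cyclic 2-groups, and the structure of abelian 2-groups.
-/

namespace Pool.Agent.Lib.MP_0430e4_lc.Sym

open Module

lemma cov_hom {G H : Type*} [AddCommGroup G] [AddCommGroup H] (π : G →+ H)
    (hπ : Function.Surjective π) :
    Cov (Multiplicative G) G H (fun g => π g.toAdd) π where
  one := by
    change π 0 = 0
    exact map_zero π
  mul := fun a b => by
    change π (a.toAdd + b.toAdd) = _
    exact map_add π _ _
  surj := fun e => by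
    obtain ⟨x, hx⟩ := hπ e
    exact ⟨Multiplicative.ofAdd x, hx⟩
  equiv := fun g x => by
    change π (g.toAdd + x) = _
    exact map_add π _ _
  fib := fun x y hxy => by
    refine ⟨Multiplicative.ofAdd (y - x), ?_, ?_⟩
    · change π (y - x) = 0
      rw [map_sub, hxy, sub_self]
    · change (y - x) + x = y
      exact sub_add_cancel y x

section cyclic

variable (n : ℕ) [NeZero n]

/-- The shift operator. -/
def shift : Module.End (ZMod 2) (ZMod n → ZMod 2) :=
  LinearMap.funLeft (ZMod 2) (ZMod 2) (fun x => 1 + x)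

lemma shift_apply (f : ZMod n → ZMod 2) (x : ZMod n) : shift n f x = f (1 + x) := rfl

lemma shift_pow_apply (k : ℕ) (f : ZMod n → ZMod 2) (x : ZMod n) :
    (shift n ^ k) f x = f ((k : ZMod n) + x) := by
  induction k generalizing f x with
  | zero => simp
  | succ k ih =>
    rw [pow_succ, Module.End.mul_apply, ih, shift_apply]
    congr 1
    push_cast
    ring

lemma end_add_self (T : Module.End (ZMod 2) (ZMod n → ZMod 2)) : T + T = 0 := by
  apply LinearMap.ext
  intro f
  funext x
  change T f x + T f x = 0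
  exact ZModModule.add_self _

lemma shift_add_one_pow (t : ℕ) : (shift n + 1) ^ (2 ^ t) = shift n ^ (2 ^ t) + 1 := by
  induction t with
  | zero => simp
  | succ t ih =>
    rw [pow_succ, pow_mul, ih, pow_mul (shift n) (2 ^ t) 2]
    generalize shift n ^ (2 ^ t) = A
    have : (A + 1) ^ 2 = A ^ 2 + 1 + (A + A) := by
      rw [pow_two, pow_two, add_mul, mul_add, mul_one, one_mul]
      abel
    rw [this, end_add_self, add_zero]

lemma pow_succ_zero {V : Type*} [AddCommGroup V] [Module (ZMod 2) V]
    {T : Module.End (ZMod 2) V} {i : ℕ} {g : V} (h : (T ^ (i + 1)) g = 0) :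
    (T ^ i) (T g) = 0 := by
  rwa [pow_succ, Module.End.mul_apply] at h

lemma ker_pow_finrank_le (i : ℕ) :
    finrank (ZMod 2) (LinearMap.ker ((shift n + 1) ^ i)) ≤ i := by
  induction i with
  | zero =>
    rw [pow_zero]
    have : LinearMap.ker (1 : Module.End (ZMod 2) (ZMod n → ZMod 2)) = ⊥ := by
      rw [LinearMap.ker_eq_bot]
      exact fun a b h => h
    rw [this]
    simp
  | succ i ih =>
    let ρ : LinearMap.ker ((shift n + 1) ^ (i + 1)) →ₗ[ZMod 2]
        LinearMap.ker ((shift n + 1) ^ i) :=
      { toFun := fun f => ⟨(shift n + 1) f.1,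
          LinearMap.mem_ker.mpr (pow_succ_zero (LinearMap.mem_ker.mp f.2))⟩
        map_add' := fun a b => by
          apply Subtype.ext
          exact map_add (shift n + 1) a.1 b.1
        map_smul' := fun c a => by
          apply Subtype.ext
          exact map_smul (shift n + 1) c a.1 }
    have h1 := LinearMap.finrank_range_add_finrank_ker ρ
    have h2 : finrank (ZMod 2) (LinearMap.range ρ) ≤ i :=
      (Submodule.finrank_le _).trans ih
    have h3 : finrank (ZMod 2) (LinearMap.ker ρ) ≤ 1 := by
      have hconst : ∀ f : LinearMap.ker ρ, ∀ x, f.1.1 x = f.1.1 0 := by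
        intro f x
        have hf : (shift n + 1) f.1.1 = 0 := congrArg Subtype.val (LinearMap.mem_ker.mp f.2)
        have hstep : ∀ y, f.1.1 (1 + y) = f.1.1 y := by
          intro y
          have := congrFun hf y
          have h5 : f.1.1 (1 + y) + f.1.1 y = 0 := this
          have h6 : ∀ a b : ZMod 2, a + b = 0 → a = b := by decide
          exact h6 _ _ h5
        have hk : ∀ k : ℕ, f.1.1 (k : ZMod n) = f.1.1 0 := by
          intro k
          induction k with
          | zero => simp
          | succ k ihk =>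
            rw [← ihk, ← hstep (k : ZMod n)]
            congr 1
            push_cast
            ring
        have := hk x.val
        rwa [ZMod.natCast_zmod_val] at this
      let e : LinearMap.ker ρ →ₗ[ZMod 2] ZMod 2 :=
        { toFun := fun f => f.1.1 0
          map_add' := fun _ _ => rfl
          map_smul' := fun _ _ => rfl }
      have he : Function.Injective e := by
        intro f g hfg
        apply Subtype.ext
        apply Subtype.ext
        funext x
        rw [hconst f x, hconst g x]
        exact hfg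
      have := LinearMap.finrank_le_finrank_of_injective he
      simpa using this
    omega

lemma finrank_inf_ker (C : Submodule (ZMod 2) (ZMod n → ZMod 2)) (hC : TI C)
    (hn : ∃ a : ℕ, n = 2 ^ a) (i : ℕ) (hi : i ≤ finrank (ZMod 2) C) :
    i ≤ finrank (ZMod 2) (C ⊓ LinearMap.ker ((shift n + 1) ^ i) : Submodule _ _) := by
  have hT : ∀ f ∈ C, (shift n + 1) f ∈ C := by
    intro f hf
    rw [LinearMap.add_apply]
    exact C.add_mem (hC 1 f hf) hf
  have hTm : ∀ m : ℕ, ∀ f ∈ C, ((shift n + 1) ^ m) f ∈ C := by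
    intro m
    induction m with
    | zero => intro f hf; simpa using hf
    | succ m ih =>
      intro f hf
      rw [pow_succ, Module.End.mul_apply]
      exact ih _ (hT f hf)
  induction i with
  | zero => exact Nat.zero_le _
  | succ i ih =>
    have h1 := ih (by omega)
    have hle : (C ⊓ LinearMap.ker ((shift n + 1) ^ i) : Submodule _ _) ≤
        C ⊓ LinearMap.ker ((shift n + 1) ^ (i + 1)) := by
      intro f hf
      refine ⟨hf.1, LinearMap.mem_ker.mpr ?_⟩
      rw [pow_succ', Module.End.mul_apply, LinearMap.mem_ker.mp hf.2, map_zero]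
    by_cases heq : (C ⊓ LinearMap.ker ((shift n + 1) ^ i) : Submodule _ _) =
        C ⊓ LinearMap.ker ((shift n + 1) ^ (i + 1))
    · exfalso
      have hall : ∀ m : ℕ, ∀ f ∈ C, ((shift n + 1) ^ (i + m)) f = 0 →
          ((shift n + 1) ^ i) f = 0 := by
        intro m
        induction m with
        | zero => intro f _ h; simpa using h
        | succ m ihm =>
          intro f hf h
          apply ihm f hf
          have h2 : ((shift n + 1) ^ m) f ∈
              (C ⊓ LinearMap.ker ((shift n + 1) ^ (i + 1)) : Submodule _ _) := by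
            refine ⟨hTm m f hf, LinearMap.mem_ker.mpr ?_⟩
            rw [← Module.End.mul_apply, ← pow_add]
            rw [show i + 1 + m = i + (m + 1) by ring]
            exact h
          rw [← heq] at h2
          have h3 := LinearMap.mem_ker.mp h2.2
          rw [← Module.End.mul_apply, ← pow_add] at h3
          exact h3
      obtain ⟨a, ha⟩ := hn
      have hzero : ∀ f : ZMod n → ZMod 2,
          ((shift n + 1 : Module.End (ZMod 2) (ZMod n → ZMod 2)) ^ (2 ^ a)) f = 0 := by
        intro f
        rw [shift_add_one_pow]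
        funext x
        rw [LinearMap.add_apply, Pi.add_apply, shift_pow_apply, ← ha]
        simp
        exact ZModModule.add_self _
      have hCK : C ≤ LinearMap.ker ((shift n + 1) ^ i) := by
        intro f hf
        rw [LinearMap.mem_ker]
        apply hall (2 ^ a) f hf
        rw [pow_add, Module.End.mul_apply, hzero, map_zero]
      have h4 := Submodule.finrank_mono hCK
      have h5 := ker_pow_finrank_le n i
      omega
    · have h6 := Submodule.finrank_lt_finrank_of_lt (lt_of_le_of_ne hle heq)
      omega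

lemma ker_le_of_finrank (C : Submodule (ZMod 2) (ZMod n → ZMod 2)) (hC : TI C)
    (hn : ∃ a : ℕ, n = 2 ^ a) (i : ℕ) (hi : i ≤ finrank (ZMod 2) C) :
    LinearMap.ker ((shift n + 1) ^ i) ≤ C := by
  have h1 := finrank_inf_ker n C hC hn i hi
  have h2 := ker_pow_finrank_le n i
  have h3 : (C ⊓ LinearMap.ker ((shift n + 1) ^ i) : Submodule _ _) =
      LinearMap.ker ((shift n + 1) ^ i) :=
    Submodule.eq_of_le_of_finrank_le inf_le_right (h2.trans h1)
  rw [← h3]
  exact inf_le_left

end cyclic

theorem cyclic_bound {δ : ℝ} {t a : ℕ} (hδ : 1 ≤ δ * 2 ^ t) (hta : t ≤ a)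
    (C : Submodule (ZMod 2) (ZMod (2 ^ a) → ZMod 2)) (hC : TI C) (hW : Wt δ C) :
    finrank (ZMod 2) C < 2 ^ t := by
  classical
  by_contra hcon
  push Not at hcon
  have : NeZero (2 ^ a) := ⟨by positivity⟩
  have h1 := ker_le_of_finrank (2 ^ a) C hC ⟨a, rfl⟩ (2 ^ t) hcon
  have hdvd : 2 ^ t ∣ 2 ^ a := pow_dvd_pow 2 hta
  let π : ZMod (2 ^ a) →+ ZMod (2 ^ t) := (ZMod.castHom hdvd (ZMod (2 ^ t))).toAddMonoidHom
  have hπ : Function.Surjective π := ZMod.castHom_surjective hdvd
  let f : ZMod (2 ^ a) → ZMod 2 := fun x => if π x = 0 then 1 else 0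
  have hf : f ∈ LinearMap.ker ((shift (2 ^ a) + 1) ^ (2 ^ t)) := by
    rw [LinearMap.mem_ker, shift_add_one_pow]
    funext x
    rw [LinearMap.add_apply, Pi.add_apply, shift_pow_apply]
    have h2 : π (((2 ^ t : ℕ) : ZMod (2 ^ a)) + x) = π x := by
      rw [map_add]
      have : π ((2 ^ t : ℕ) : ZMod (2 ^ a)) = 0 := by
        change (ZMod.castHom hdvd (ZMod (2 ^ t))) ((2 ^ t : ℕ) : ZMod (2 ^ a)) = 0
        rw [map_natCast]
        exact ZMod.natCast_self _
      rw [this, zero_add]
    have h3 : f (((2 ^ t : ℕ) : ZMod (2 ^ a)) + x) = f x := by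
      simp only [f, h2]
    rw [h3]
    exact ZModModule.add_self _
  have hfC := h1 hf
  have hf0 : f ≠ 0 := by
    intro h0
    have := congrFun h0 0
    simp [f] at this
  have h4 := hW f hfC hf0
  have hcov := cov_hom π hπ
  have : NeZero (2 ^ t) := ⟨by positivity⟩
  have h5 := hcov.card_mul (fun e => (if e = 0 then (1 : ZMod 2) else 0) ≠ 0)
  have h6 : Nat.card {y : ZMod (2 ^ t) // (if y = 0 then (1 : ZMod 2) else 0) ≠ 0} = 1 := by
    rw [Nat.card_eq_one_iff_unique]
    refine ⟨⟨?_⟩, ⟨⟨0, by simp⟩⟩⟩
    rintro ⟨x, hx⟩ ⟨y, hy⟩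
    apply Subtype.ext
    have hx0 : x = 0 := by
      by_contra h
      exact hx (if_neg h)
    have hy0 : y = 0 := by
      by_contra h
      exact hy (if_neg h)
    exact hx0.trans hy0.symm
  rw [h6, one_mul, Nat.card_zmod, Nat.card_zmod] at h5
  rw [Nat.card_zmod] at h4
  have h5' : Nat.card {x // f x ≠ 0} * 2 ^ t = 2 ^ a := h5
  have h7 : (Nat.card {x // f x ≠ 0} : ℝ) * 2 ^ t = 2 ^ a := by exact_mod_cast h5'
  have h8 : (0 : ℝ) < 2 ^ t := by positivity
  have h9 : (0 : ℝ) < 2 ^ a := by positivity
  push_cast at h4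
  have h10 : δ * 2 ^ a * 2 ^ t < 2 ^ a := by
    calc δ * 2 ^ a * 2 ^ t < (Nat.card {x // f x ≠ 0} : ℝ) * 2 ^ t :=
          mul_lt_mul_of_pos_right h4 h8
      _ = 2 ^ a := h7
  nlinarith

end Pool.Agent.Lib.MP_0430e4_lc.Sym
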