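import Pool.Agent.Lib.MP_0430e4_lc.Sym.Fixed

/-!
Passing from an invariant code on a transitive 2-group set to the code of words that are
constant on the fibres of an equivariant map onto an abelian group.
-/

namespace Pool.Agent.Lib.MP_0430e4_lc.Sym

open Module

/-- Words of `C` that factor through `p`. -/
def pb {X E : Type*} (p : X → E) (C : Submodule (ZMod 2) (X → ZMod 2)) :
    Submodule (ZMod 2) (E → ZMod 2) :=
  C.comap (LinearMap.funLeft (ZMod 2) (ZMod 2) p)

lemma mem_pb {X E : Type*} {p : X → E} {C : Submodule (ZMod 2) (X → ZMod 2)} {g : E → ZMod 2} :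
    g ∈ pb p C ↔ (fun x => g (p x)) ∈ C := Iff.rfl

/-- Translation invariant codes on an additive group. -/
def TI {E : Type*} [AddCommGroup E] (C : Submodule (ZMod 2) (E → ZMod 2)) : Prop :=
  ∀ v : E, ∀ f ∈ C, (fun x => f (v + x)) ∈ C

/-- Data: an equivariant map from a `P`-set onto an abelian group on which `P` acts by
translations, the kernel being transitive on the fibres. -/
structure Cov (P X E : Type*) [Group P] [MulAction P X] [AddCommGroup E]
    (θ : P → E) (p : X → E) : Prop where
  one : θ 1 = 0
  mul : ∀ a b, θ (a * b) = θ a + θ b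
  surj : Function.Surjective θ
  equiv : ∀ (g : P) (x : X), p (g • x) = θ g + p x
  fib : ∀ x y : X, p x = p y → ∃ g : P, θ g = 0 ∧ g • x = y

namespace Cov

variable {P X E : Type*} [Group P] [MulAction P X] [AddCommGroup E] {θ : P → E} {p : X → E}

/-- The kernel as a subgroup. -/
def ker (h : Cov P X E θ p) : Subgroup P where
  carrier := {g | θ g = 0}
  mul_mem' := by
    intro a b ha hb
    change θ (a * b) = 0
    rw [h.mul, show θ a = 0 from ha, show θ b = 0 from hb, add_zero]
  one_mem' := h.one
  inv_mem' := by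
    intro a ha
    change θ a⁻¹ = 0
    have h1 := h.mul a⁻¹ a
    rw [inv_mul_cancel, h.one, show θ a = 0 from ha, add_zero] at h1
    exact h1.symm

lemma surjP [Nonempty X] (h : Cov P X E θ p) : Function.Surjective p := by
  intro e
  obtain ⟨x⟩ := ‹Nonempty X›
  obtain ⟨g, hg⟩ := h.surj (e - p x)
  exact ⟨g • x, by rw [h.equiv, hg, sub_add_cancel]⟩

lemma ti_pb (h : Cov P X E θ p) (C : Submodule (ZMod 2) (X → ZMod 2)) (hC : Inv P C) :
    TI (pb p C) := by
  intro v f hf
  obtain ⟨g, hg⟩ := h.surj v
  have h1 := hC g _ (mem_pb.mp hf)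
  refine mem_pb.mpr ?_
  have h2 : (fun x => f (v + p x)) = (fun x => f (p (g • x))) := by
    funext x
    rw [h.equiv, hg]
  rw [h2]
  exact h1

lemma fiber_card [Finite X] [Nonempty X] (h : Cov P X E θ p) (e e' : E) :
    Nat.card {x // p x = e} = Nat.card {x // p x = e'} := by
  obtain ⟨g, hg⟩ := h.surj (e' - e)
  refine Nat.card_congr
    { toFun := fun x => ⟨g • x.1, by rw [h.equiv, x.2, hg, sub_add_cancel]⟩
      invFun := fun x => ⟨g⁻¹ • x.1, ?_⟩
      left_inv := fun x => by
        apply Subtype.ext
        simp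
      right_inv := fun x => by
        apply Subtype.ext
        simp }
  have h1 := h.equiv g (g⁻¹ • x.1)
  rw [smul_inv_smul, x.2, hg] at h1
  have : p (g⁻¹ • x.1) = e' - (e' - e) := by
    rw [eq_sub_iff_add_eq, add_comm]
    exact h1.symm
  rw [this]
  abel

lemma card_preimage [Finite X] [Finite E] [Nonempty X] (h : Cov P X E θ p) (A : E → Prop) :
    Nat.card {x // A (p x)} = Nat.card {y // A y} * Nat.card {x // p x = 0} := by
  classical
  have : Fintype X := Fintype.ofFinite X
  have : Fintype E := Fintype.ofFinite E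
  have e1 : {x // A (p x)} ≃ Σ y : {y // A y}, {x // p x = y.1} :=
    { toFun := fun x => ⟨⟨p x.1, x.2⟩, ⟨x.1, rfl⟩⟩
      invFun := fun z => ⟨z.2.1, by rw [z.2.2]; exact z.1.2⟩
      left_inv := fun x => rfl
      right_inv := fun z => by
        refine Sigma.ext (Subtype.ext z.2.2) ?_
        refine (Subtype.heq_iff_coe_eq ?_).mpr rfl
        intro x
        change p x = p z.2.1 ↔ p x = z.1.1
        rw [z.2.2] }
  rw [Nat.card_congr e1, Nat.card_sigma]
  rw [Finset.sum_congr rfl (fun y _ => h.fiber_card y.1 0)]
  simp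

lemma card_total [Finite X] [Finite E] [Nonempty X] (h : Cov P X E θ p) :
    Nat.card X = Nat.card E * Nat.card {x // p x = 0} := by
  have h1 := h.card_preimage (fun _ => True)
  have e1 : Nat.card {x : X // True} = Nat.card X :=
    Nat.card_congr (Equiv.subtypeUnivEquiv (fun _ => trivial))
  have e2 : Nat.card {x : E // True} = Nat.card E :=
    Nat.card_congr (Equiv.subtypeUnivEquiv (fun _ => trivial))
  rw [e1, e2] at h1
  exact h1

lemma card_mul [Finite X] [Finite E] [Nonempty X] (h : Cov P X E θ p) (A : E → Prop) :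
    Nat.card {x // A (p x)} * Nat.card E = Nat.card {y // A y} * Nat.card X := by
  rw [h.card_preimage, h.card_total]
  ring

lemma finrank_mul_le [Finite X] [Finite E] [Nonempty X] (h : Cov P X E θ p)
    (hP : IsPGroup 2 P) (C : Submodule (ZMod 2) (X → ZMod 2)) (hC : Inv P C) :
    finrank (ZMod 2) C * Nat.card E ≤ Nat.card X * finrank (ZMod 2) (pb p C) := by
  classical
  have : Fintype X := Fintype.ofFinite X
  have : Fintype E := Fintype.ofFinite E
  let N := h.ker
  have hN : IsPGroup 2 N := hP.to_subgroup N
  have hCN : Inv N C := fun g f hf => hC g.1 f hf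
  set s := Nat.card {x // p x = 0} with hs
  have horb : ∀ x : X, Nat.card (MulAction.orbit N x) ≤ s := by
    intro x
    rw [hs, h.fiber_card 0 (p x)]
    refine Nat.card_le_card_of_injective
      (fun z : MulAction.orbit N x => (⟨z.1, ?_⟩ : {y // p y = p x})) ?_
    · obtain ⟨g, hg⟩ := z.2
      have : g.1 • x = z.1 := hg
      rw [← this, h.equiv, show θ g.1 = 0 from g.2, zero_add]
    · intro a b hab
      have := congrArg (fun z : {y // p y = p x} => z.1) hab
      exact Subtype.ext this
  have h1 := finrank_le_mul_fixed hN s horb _ C hCN le_rfl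
  have h2 : finrank (ZMod 2) (fixedSub N C) ≤ finrank (ZMod 2) (pb p C) := by
    let j : pb p C →ₗ[ZMod 2] fixedSub N C :=
      { toFun := fun g => ⟨fun x => g.1 (p x), mem_pb.mp g.2, fun k x => by
          have : p (k • x) = p x := by
            change p (k.1 • x) = p x
            rw [h.equiv, show θ k.1 = 0 from k.2, zero_add]
          change g.1 (p (k • x)) = g.1 (p x)
          rw [this]⟩
        map_add' := fun _ _ => rfl
        map_smul' := fun _ _ => rfl }
    have hj : Function.Surjective j := by
      rintro ⟨f, hf, hf'⟩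
      have hsurj := h.surjP
      choose q hq using hsurj
      have hconst : ∀ x, f (q (p x)) = f x := by
        intro x
        obtain ⟨g, hg0, hgx⟩ := h.fib (q (p x)) x (hq (p x))
        have := hf' ⟨g, hg0⟩ (q (p x))
        have h3 : ((⟨g, hg0⟩ : N) • q (p x)) = x := hgx
        rw [h3] at this
        exact this.symm
      refine ⟨⟨fun e => f (q e), ?_⟩, ?_⟩
      · refine mem_pb.mpr ?_
        have : (fun x => f (q (p x))) = f := funext hconst
        rw [this]
        exact hf
      · apply Subtype.ext
        funext x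
        exact hconst x
    calc finrank (ZMod 2) (fixedSub N C)
        = finrank (ZMod 2) (LinearMap.range j) := by
          rw [LinearMap.range_eq_top.mpr hj, finrank_top]
      _ ≤ finrank (ZMod 2) (pb p C) := LinearMap.finrank_range_le j
  have h4 := h.card_total
  calc finrank (ZMod 2) C * Nat.card E ≤ (s * finrank (ZMod 2) (fixedSub N C)) * Nat.card E :=
        Nat.mul_le_mul_right _ h1
    _ ≤ (s * finrank (ZMod 2) (pb p C)) * Nat.card E := by gcongr
    _ = Nat.card X * finrank (ZMod 2) (pb p C) := by rw [h4]; ring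

end Cov

end Pool.Agent.Lib.MP_0430e4_lc.Sym
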