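import Pool.Agent.Lib.MP_0430e4_lc.Sym.Descend

/-!
Translation invariant codes on elementary abelian 2-groups have asymptotic rate zero.
-/

namespace Pool.Agent.Lib.MP_0430e4_lc.Sym

open Module

section
variable {G H : Type*} [AddCommGroup G] [Module (ZMod 2) G] [Finite G]
  [AddCommGroup H] [Module (ZMod 2) H] [Finite H]

lemma isPGroup_mult : IsPGroup 2 (Multiplicative G) := by
  intro g
  refine ⟨1, ?_⟩
  rw [pow_one, pow_two]
  change Multiplicative.ofAdd (g.toAdd + g.toAdd) = 1
  rw [ZModModule.add_self]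
  rfl

lemma inv_mult {C : Submodule (ZMod 2) (G → ZMod 2)} (hC : TI C) : Inv (Multiplicative G) C :=
  fun g f hf => hC g.toAdd f hf

lemma cov_linear (π : G →ₗ[ZMod 2] H) (hπ : Function.Surjective π) :
    Cov (Multiplicative G) G H (fun g => π g.toAdd) π where
  one := by
    change π 0 = 0
    exact map_zero π
  mul := fun a b => by
    change π (a.toAdd + b.toAdd) = _
    exact map_add π _ _
  surj := fun e => by
    obtain ⟨x, hx⟩ := hπ e
    exact ⟨Multiplicative.ofAdd x, hx⟩
  equiv := fun g x => by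
    change π (g.toAdd + x) = _
    exact map_add π _ _
  fib := fun x y hxy => by
    refine ⟨Multiplicative.ofAdd (y - x), ?_, ?_⟩
    · change π (y - x) = 0
      rw [map_sub, hxy, sub_self]
    · change (y - x) + x = y
      exact sub_add_cancel y x

/-- A functional vanishing on the words factoring through `b` lifts to one vanishing on `C`. -/
lemma lift_functional {X E : Type*} (b : X → E) (C : Submodule (ZMod 2) (X → ZMod 2))
    (ψ : Dual (ZMod 2) (E → ZMod 2)) (hψ : ∀ g ∈ pb b C, ψ g = 0) :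
    ∃ Ψ : Dual (ZMod 2) (X → ZMod 2), (∀ f ∈ C, Ψ f = 0) ∧
      ∀ g : E → ZMod 2, Ψ (fun x => g (b x)) = ψ g := by
  let q : (E → ZMod 2) →ₗ[ZMod 2] ((X → ZMod 2) ⧸ C) :=
    C.mkQ ∘ₗ LinearMap.funLeft (ZMod 2) (ZMod 2) b
  have hq : ψ ∈ (LinearMap.ker q).dualAnnihilator := by
    rw [Submodule.mem_dualAnnihilator]
    intro g hg
    apply hψ
    have : C.mkQ (fun x => g (b x)) = 0 := hg
    rw [Submodule.mkQ_apply, Submodule.Quotient.mk_eq_zero] at this
    exact this
  rw [← LinearMap.range_dualMap_eq_dualAnnihilator_ker] at hq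
  obtain ⟨Ψ', hΨ'⟩ := hq
  refine ⟨Ψ' ∘ₗ C.mkQ, ?_, ?_⟩
  · intro f hf
    have : C.mkQ f = 0 := by
      rw [Submodule.mkQ_apply, Submodule.Quotient.mk_eq_zero]
      exact hf
    rw [LinearMap.comp_apply, this, map_zero]
  · intro g
    rw [← hΨ']
    rfl

lemma functional_sum {X : Type*} [Fintype X] [DecidableEq X]
    (Ψ : Dual (ZMod 2) (X → ZMod 2)) (f : X → ZMod 2) :
    Ψ f = ∑ x, f x * Ψ (Pi.single x 1) := by
  rw [LinearMap.pi_apply_eq_sum_univ Ψ f]
  apply Finset.sum_congr rfl
  intro x _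
  have : (Pi.single x 1 : X → ZMod 2) = fun j => if x = j then 1 else 0 := by
    funext j
    simp [Pi.single_apply, eq_comm]
  rw [this, smul_eq_mul]

/-- Main step. -/
theorem step (b : G →ₗ[ZMod 2] H) (hb : Function.Surjective b)
    (C : Submodule (ZMod 2) (G → ZMod 2)) (hC : TI C)
    (hbig : 2 ^ (Nat.card H) * Nat.card H < finrank (ZMod 2) (LinearMap.ker b)) :
    ∃ D : Submodule (ZMod 2) (H → ZMod 2), TI D ∧
      (∀ a ∈ D, a ≠ 0 → ∃ f ∈ C, f ≠ 0 ∧
        Nat.card {x // f x ≠ 0} * (2 * Nat.card H) = Nat.card {y // a y ≠ 0} * Nat.card G) ∧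
      finrank (ZMod 2) C * (2 * Nat.card H) ≤
        Nat.card G * (finrank (ZMod 2) (pb b C) + finrank (ZMod 2) D) := by
  classical
  have : Fintype G := Fintype.ofFinite G
  have : Fintype H := Fintype.ofFinite H
  -- functionals
  let Ann := {ψ : Dual (ZMod 2) (H → ZMod 2) // ∀ g ∈ pb b C, ψ g = 0}
  have hlift : ∀ ψ : Ann, ∃ Ψ : Dual (ZMod 2) (G → ZMod 2), (∀ f ∈ C, Ψ f = 0) ∧
      ∀ g : H → ZMod 2, Ψ (fun x => g (b x)) = ψ.1 g :=
    fun ψ => lift_functional b C ψ.1 ψ.2
  choose Ψ hΨC hΨb using hlift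
  have : Finite (Dual (ZMod 2) (H → ZMod 2)) :=
    Module.finite_of_finite (ZMod 2)
  have : Finite Ann := Subtype.finite
  have : Fintype Ann := Fintype.ofFinite Ann
  have hAnn : Nat.card Ann ≤ 2 ^ Nat.card H := by
    have h1 : Nat.card Ann ≤ Nat.card (Dual (ZMod 2) (H → ZMod 2)) :=
      Nat.card_le_card_of_injective (fun ψ : Ann => ψ.1) Subtype.val_injective
    have h2 : Nat.card (Dual (ZMod 2) (H → ZMod 2)) = 2 ^ Nat.card H := by
      rw [Module.natCard_eq_pow_finrank (K := ZMod 2), Subspace.dual_finrank_eq, Nat.card_zmod]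
      simp
    omega
  let v : Ann × H → G := fun z => ∑ x : G, if b x = z.2 then (Ψ z.1 (Pi.single x 1)) • x else 0
  let W : Submodule (ZMod 2) G := Submodule.span (ZMod 2) (Set.range v)
  have hW : finrank (ZMod 2) W < finrank (ZMod 2) (LinearMap.ker b) := by
    have h1 : finrank (ZMod 2) W ≤ Fintype.card (Ann × H) := finrank_range_le_card v
    have h2 : Fintype.card (Ann × H) = Nat.card Ann * Nat.card H := by
      rw [← Nat.card_eq_fintype_card, Nat.card_prod]
    have h3 : Nat.card Ann * Nat.card H ≤ 2 ^ Nat.card H * Nat.card H :=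
      Nat.mul_le_mul_right _ hAnn
    omega
  have hnle : ¬ LinearMap.ker b ≤ W := by
    intro hle
    have := Submodule.finrank_mono hle
    omega
  obtain ⟨z, hz, hzW⟩ := Set.not_subset.mp hnle
  obtain ⟨χ, hχz, hχW⟩ := Submodule.exists_le_ker_of_notMem hzW
  have hz0 : b z = 0 := hz
  have hχ1 : χ z = 1 := by
    have : ∀ t : ZMod 2, t ≠ 0 → t = 1 := by decide
    exact this _ hχz
  have hkey : ∀ (ψ : Ann) (Δ : H → ZMod 2), Ψ ψ (fun x => χ x * Δ (b x)) = 0 := by
    intro ψ Δ
    rw [functional_sum]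
    have h1 : ∀ x : G, χ x * Δ (b x) * Ψ ψ (Pi.single x 1) =
        ∑ y : H, if b x = y then Δ y * (Ψ ψ (Pi.single x 1) * χ x) else 0 := by
      intro x
      rw [Finset.sum_ite_eq]
      simp
      ring
    rw [Finset.sum_congr rfl (fun x _ => h1 x), Finset.sum_comm]
    apply Finset.sum_eq_zero
    intro y _
    have h2 : χ (v (ψ, y)) = 0 := by
      have : v (ψ, y) ∈ W := Submodule.subset_span ⟨_, rfl⟩
      exact LinearMap.mem_ker.mp (hχW this)
    have h3 : χ (v (ψ, y)) = ∑ x : G, if b x = y then Ψ ψ (Pi.single x 1) * χ x else 0 := by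
      simp only [v]
      rw [map_sum]
      apply Finset.sum_congr rfl
      intro x _
      split_ifs with h
      · rw [map_smul, smul_eq_mul]
      · exact map_zero χ
    have h4 : (∑ x : G, if b x = y then Δ y * (Ψ ψ (Pi.single x 1) * χ x) else 0)
        = Δ y * ∑ x : G, if b x = y then Ψ ψ (Pi.single x 1) * χ x else 0 := by
      rw [Finset.mul_sum]
      apply Finset.sum_congr rfl
      intro x _
      split_ifs <;> simp
    rw [h4, ← h3, h2, mul_zero]
  -- the product map
  let π : G →ₗ[ZMod 2] H × ZMod 2 := b.prod χ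
  have hπ : Function.Surjective π := by
    rintro ⟨y, t⟩
    obtain ⟨x, hx⟩ := hb y
    refine ⟨x + (t - χ x) • z, ?_⟩
    change (b (x + (t - χ x) • z), χ (x + (t - χ x) • z)) = (y, t)
    rw [map_add, map_add, map_smul, map_smul, hz0, hχ1, hx]
    simp
  let Dmap : (H → ZMod 2) →ₗ[ZMod 2] (G → ZMod 2) :=
    { toFun := fun a x => χ x * a (b x)
      map_add' := fun a a' => by
        funext x
        simp [mul_add]
      map_smul' := fun c a => by
        funext x
        simp
        ring }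
  let D : Submodule (ZMod 2) (H → ZMod 2) := C.comap Dmap
  have hmemD : ∀ a, a ∈ D ↔ (fun x => χ x * a (b x)) ∈ C := fun a => Iff.rfl
  refine ⟨D, ?_, ?_, ?_⟩
  · intro w a ha
    obtain ⟨x0, hx0⟩ := hπ (w, 0)
    have hbx : b x0 = w := congrArg Prod.fst hx0
    have hcx : χ x0 = 0 := congrArg Prod.snd hx0
    have h1 := hC x0 _ ((hmemD a).mp ha)
    refine (hmemD _).mpr ?_
    have h2 : (fun x => χ x * a (w + b x)) = (fun x => χ (x0 + x) * a (b (x0 + x))) := by
      funext x
      rw [map_add, map_add, hbx, hcx, zero_add]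
    rw [h2]
    exact h1
  · intro a ha ha0
    refine ⟨_, (hmemD a).mp ha, ?_, ?_⟩
    · intro h0
      apply ha0
      funext y
      obtain ⟨x, hx⟩ := hπ (y, 1)
      have hbx : b x = y := congrArg Prod.fst hx
      have hcx : χ x = 1 := congrArg Prod.snd hx
      have := congrFun h0 x
      simp only [hbx, hcx, one_mul] at this
      exact this
    · have hcov := cov_linear π hπ
      have h1 := hcov.card_mul (fun u : H × ZMod 2 => u.2 * a u.1 ≠ 0)
      have h2 : Nat.card (H × ZMod 2) = 2 * Nat.card H := by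
        rw [Nat.card_prod, Nat.card_zmod, mul_comm]
      rw [h2] at h1
      have h3 : Nat.card {y : H × ZMod 2 // y.2 * a y.1 ≠ 0} = Nat.card {y : H // a y ≠ 0} := by
        refine Nat.card_congr
          { toFun := fun u => ⟨u.1.1, fun h => u.2 (by rw [h, mul_zero])⟩
            invFun := fun y => ⟨(y.1, 1), by simpa using y.2⟩
            left_inv := fun u => by
              apply Subtype.ext
              have h5 : u.1.2 ≠ 0 := fun h => u.2 (by rw [h, zero_mul])
              have : ∀ t : ZMod 2, t ≠ 0 → t = 1 := by decide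
              exact Prod.ext rfl (this _ h5).symm
            right_inv := fun y => rfl }
      rw [h3] at h1
      exact h1
  · -- dimension count
    have hcov := cov_linear π hπ
    have h1 := hcov.finrank_mul_le isPGroup_mult C (inv_mult hC)
    have h2 : Nat.card (H × ZMod 2) = 2 * Nat.card H := by
      rw [Nat.card_prod, Nat.card_zmod, mul_comm]
    rw [h2] at h1
    refine h1.trans (Nat.mul_le_mul_left _ ?_)
    have hslice : ∀ g : H × ZMod 2 → ZMod 2, g ∈ pb π C → (fun y => g (y, 0)) ∈ pb b C := by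
      intro g hg
      by_contra hcon
      obtain ⟨ψ, hψ1, hψ2⟩ := Submodule.exists_le_ker_of_notMem hcon
      let ψ' : Ann := ⟨ψ, fun g' hg' => LinearMap.mem_ker.mp (hψ2 hg')⟩
      apply hψ1
      have e1 : (fun x => g (π x)) = (fun x => g (b x, 0)) +
          (fun x => χ x * (fun y => g (y, 1) - g (y, 0)) (b x)) := by
        funext x
        change g (b x, χ x) = g (b x, 0) + χ x * (g (b x, 1) - g (b x, 0))
        have : ∀ t : ZMod 2, t = 0 ∨ t = 1 := by decide
        rcases this (χ x) with h | h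
        · rw [h]; ring
        · rw [h]; ring
      have e2 := hΨC ψ' _ (mem_pb.mp hg)
      have e4 := hkey ψ' (fun y => g (y, 1) - g (y, 0))
      rw [e1, map_add, e4, add_zero] at e2
      have e3 := hΨb ψ' (fun y => g (y, 0))
      rw [e2] at e3
      exact e3.symm
    let Λ : pb π C →ₗ[ZMod 2] pb b C :=
      { toFun := fun g => ⟨fun y => g.1 (y, 0), hslice g.1 g.2⟩
        map_add' := fun _ _ => rfl
        map_smul' := fun _ _ => rfl }
    have h3 := LinearMap.finrank_range_add_finrank_ker Λ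
    have h4 : finrank (ZMod 2) (LinearMap.range Λ) ≤ finrank (ZMod 2) (pb b C) :=
      Submodule.finrank_le _
    have hk : ∀ g : LinearMap.ker Λ, ∀ y, g.1.1 (y, 0) = 0 := by
      intro g y
      have := LinearMap.mem_ker.mp g.2
      exact congrFun (congrArg Subtype.val this) y
    have h5 : finrank (ZMod 2) (LinearMap.ker Λ) ≤ finrank (ZMod 2) D := by
      let j : LinearMap.ker Λ →ₗ[ZMod 2] D :=
        { toFun := fun g => ⟨fun y => g.1.1 (y, 1), by
            refine (hmemD _).mpr ?_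
            have e1 : (fun x => χ x * g.1.1 (b x, 1)) = (fun x => g.1.1 (π x)) := by
              funext x
              change χ x * g.1.1 (b x, 1) = g.1.1 (b x, χ x)
              have : ∀ t : ZMod 2, t = 0 ∨ t = 1 := by decide
              rcases this (χ x) with h | h
              · rw [h, hk g]; ring
              · rw [h]; ring
            rw [e1]
            exact mem_pb.mp g.1.2⟩
          map_add' := fun _ _ => rfl
          map_smul' := fun _ _ => rfl }
      apply LinearMap.finrank_le_finrank_of_injective (f := j)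
      intro g g' hgg
      have e1 : ∀ y, g.1.1 (y, 1) = g'.1.1 (y, 1) := fun y =>
        congrFun (congrArg (fun z : D => z.1) hgg) y
      apply Subtype.ext
      apply Subtype.ext
      funext u
      obtain ⟨y, t⟩ := u
      have : ∀ t : ZMod 2, t = 0 ∨ t = 1 := by decide
      rcases this t with h | h
      · rw [h, hk g, hk g']
      · rw [h]
        exact e1 y
    omega

end

/-- All nonzero words of `C` have more than `δ` times the length nonzero entries. -/
def Wt {X : Type*} (δ : ℝ) (C : Submodule (ZMod 2) (X → ZMod 2)) : Prop :=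
  ∀ f ∈ C, f ≠ 0 → δ * (Nat.card X : ℝ) < (Nat.card {x // f x ≠ 0} : ℝ)

lemma eq_bot_of_Wt {X : Type*} [Finite X] {δ : ℝ} (hδ : 1 ≤ δ)
    {C : Submodule (ZMod 2) (X → ZMod 2)} (h : Wt δ C) : C = ⊥ := by
  rw [Submodule.eq_bot_iff]
  intro f hf
  by_contra hne
  have h1 := h f hf hne
  have h2 : Nat.card {x // f x ≠ 0} ≤ Nat.card X :=
    Nat.card_le_card_of_injective Subtype.val Subtype.val_injective
  have h3 : (Nat.card {x // f x ≠ 0} : ℝ) ≤ Nat.card X := by exact_mod_cast h2
  have h4 : (0 : ℝ) ≤ Nat.card X := Nat.cast_nonneg _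
  nlinarith

lemma Cov.wt_pb {P X E : Type*} [Group P] [MulAction P X] [AddCommGroup E] {θ : P → E}
    {p : X → E} [Finite X] [Finite E] [Nonempty X] (h : Cov P X E θ p) {δ : ℝ}
    {C : Submodule (ZMod 2) (X → ZMod 2)} (hC : Wt δ C) : Wt δ (pb p C) := by
  intro g hg hg0
  have h1 : (fun x => g (p x)) ≠ 0 := by
    intro h0
    apply hg0
    funext e
    obtain ⟨x, hx⟩ := h.surjP e
    rw [← hx]
    exact congrFun h0 x
  have h2 := hC _ (mem_pb.mp hg) h1
  have h3 := h.card_mul (fun e => g e ≠ 0)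
  have h4 : (Nat.card {x // g (p x) ≠ 0} : ℝ) * Nat.card E =
      Nat.card {y // g y ≠ 0} * Nat.card X := by exact_mod_cast h3
  have hX : (0 : ℝ) < Nat.card X := by exact_mod_cast Nat.card_pos
  have : Nonempty E := ⟨0⟩
  have hE : (0 : ℝ) < Nat.card E := by exact_mod_cast Nat.card_pos
  have h5 : δ * Nat.card X * Nat.card E < Nat.card {y // g y ≠ 0} * Nat.card X := by
    rw [← h4]
    exact mul_lt_mul_of_pos_right h2 hE
  have h6 : (δ * Nat.card E) * Nat.card X < Nat.card {y // g y ≠ 0} * Nat.card X := by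
    linarith
  exact lt_of_mul_lt_mul_right h6 hX.le

/-- The statement that translation invariant codes on `(Z/2)^k` with relative distance more than
`δ` have rate tending to zero. -/
def ZeroRate (δ : ℝ) : Prop :=
  ∀ ε : ℝ, 0 < ε → ∃ K : ℕ, ∀ k : ℕ, K ≤ k →
    ∀ C : Submodule (ZMod 2) ((Fin k → ZMod 2) → ZMod 2), TI C → Wt δ C →
      (finrank (ZMod 2) C : ℝ) ≤ ε * 2 ^ k

lemma card_cube (k : ℕ) : Nat.card (Fin k → ZMod 2) = 2 ^ k := by
  simp

lemma zeroRate_of_one_le {δ : ℝ} (hδ : 1 ≤ δ) : ZeroRate δ := by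
  intro ε hε
  refine ⟨0, fun k _ C _ hC => ?_⟩
  rw [eq_bot_of_Wt hδ hC]
  simp
  positivity

lemma zeroRate_of_double {δ : ℝ} (h2 : ZeroRate (2 * δ)) : ZeroRate δ := by
  intro ε hε
  -- auxiliary claim
  have key : ∀ t : ℕ, ∃ K : ℕ, ∀ k : ℕ, K ≤ k →
      ∀ C : Submodule (ZMod 2) ((Fin k → ZMod 2) → ZMod 2), TI C → Wt δ C →
        (finrank (ZMod 2) C : ℝ) ≤ ((1 / 2 : ℝ) ^ t + ε / 2) * 2 ^ k := by
    intro t
    induction t with
    | zero =>
      refine ⟨0, fun k _ C _ _ => ?_⟩
      have h1 : finrank (ZMod 2) C ≤ finrank (ZMod 2) ((Fin k → ZMod 2) → ZMod 2) :=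
        Submodule.finrank_le _
      have h3 : finrank (ZMod 2) ((Fin k → ZMod 2) → ZMod 2) = 2 ^ k := by simp
      rw [h3] at h1
      have h4 : (finrank (ZMod 2) C : ℝ) ≤ 2 ^ k := by exact_mod_cast h1
      have h5 : (0 : ℝ) < 2 ^ k := by positivity
      rw [pow_zero]
      nlinarith
    | succ t ih =>
      obtain ⟨K1, hK1⟩ := ih
      obtain ⟨K2, hK2⟩ := h2 (ε / 2) (by positivity)
      let j := max K1 K2
      refine ⟨j + (2 ^ (2 ^ j) * 2 ^ j + 1), ?_⟩
      intro k hk C hTI hW
      have hjk : j ≤ k := by omega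
      let b : (Fin k → ZMod 2) →ₗ[ZMod 2] (Fin j → ZMod 2) :=
        LinearMap.funLeft (ZMod 2) (ZMod 2) (Fin.castLE hjk)
      have hb : Function.Surjective b :=
        LinearMap.funLeft_surjective_of_injective _ _ _ (Fin.castLE_injective hjk)
      have hker : finrank (ZMod 2) (LinearMap.ker b) = k - j := by
        have h5 := LinearMap.finrank_range_add_finrank_ker b
        rw [LinearMap.range_eq_top.mpr hb, finrank_top] at h5
        simp only [finrank_fintype_fun_eq_card, Fintype.card_fin] at h5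
        omega
      obtain ⟨D, hD1, hD2, hD3⟩ := step b hb C hTI (by
        rw [hker, card_cube]
        omega)
      rw [card_cube, card_cube] at hD3
      have hcov := cov_linear b hb
      have e1 : (finrank (ZMod 2) (pb b C) : ℝ) ≤ ((1 / 2 : ℝ) ^ t + ε / 2) * 2 ^ j :=
        hK1 j (le_max_left _ _) _ (hcov.ti_pb C (inv_mult hTI)) (hcov.wt_pb hW)
      have e2 : (finrank (ZMod 2) D : ℝ) ≤ ε / 2 * 2 ^ j := by
        refine hK2 j (le_max_right _ _) D hD1 ?_
        intro a ha ha0
        obtain ⟨f, hfC, hf0, hfa⟩ := hD2 a ha ha0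
        have h6 := hW f hfC hf0
        rw [card_cube] at h6 hfa ⊢
        rw [card_cube] at hfa
        have h7 : (Nat.card {x // f x ≠ 0} : ℝ) * (2 * 2 ^ j) =
            Nat.card {y // a y ≠ 0} * 2 ^ k := by exact_mod_cast hfa
        have h8 : (0 : ℝ) < 2 ^ k := by positivity
        have h9 : (0 : ℝ) < 2 ^ j := by positivity
        push_cast at h6 ⊢
        have h10 : δ * 2 ^ k * (2 * 2 ^ j) < Nat.card {y // a y ≠ 0} * 2 ^ k := by
          rw [← h7]
          exact mul_lt_mul_of_pos_right h6 (by positivity)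
        have h11 : (2 * δ * 2 ^ j) * 2 ^ k < Nat.card {y // a y ≠ 0} * 2 ^ k := by
          linarith
        exact lt_of_mul_lt_mul_right h11 h8.le
      have e3 : (finrank (ZMod 2) C : ℝ) * (2 * 2 ^ j) ≤
          2 ^ k * (finrank (ZMod 2) (pb b C) + finrank (ZMod 2) D) := by
        exact_mod_cast hD3
      have h9 : (0 : ℝ) < 2 ^ j := by positivity
      have h8 : (0 : ℝ) < 2 ^ k := by positivity
      have e4 : (finrank (ZMod 2) C : ℝ) * (2 * 2 ^ j) ≤
          (((1 / 2 : ℝ) ^ (t + 1) + ε / 2) * 2 ^ k) * (2 * 2 ^ j) := by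
        calc (finrank (ZMod 2) C : ℝ) * (2 * 2 ^ j) ≤
            2 ^ k * (finrank (ZMod 2) (pb b C) + finrank (ZMod 2) D) := e3
          _ ≤ 2 ^ k * (((1 / 2 : ℝ) ^ t + ε / 2) * 2 ^ j + ε / 2 * 2 ^ j) := by gcongr
          _ = (((1 / 2 : ℝ) ^ (t + 1) + ε / 2) * 2 ^ k) * (2 * 2 ^ j) := by ring
      exact le_of_mul_le_mul_right e4 (by positivity)
  obtain ⟨t, ht⟩ := exists_pow_lt_of_lt_one (show (0 : ℝ) < ε / 2 by positivity)
    (show (1 / 2 : ℝ) < 1 by norm_num)
  obtain ⟨K, hK⟩ := key t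
  refine ⟨K, fun k hk C h3 h4 => (hK k hk C h3 h4).trans ?_⟩
  have h8 : (0 : ℝ) < 2 ^ k := by positivity
  nlinarith

theorem zeroRate {δ : ℝ} (hδ : 0 < δ) : ZeroRate δ := by
  have h : ∀ n : ℕ, ∀ δ : ℝ, 1 ≤ δ * 2 ^ n → ZeroRate δ := by
    intro n
    induction n with
    | zero =>
      intro δ h
      exact zeroRate_of_one_le (by simpa using h)
    | succ n ih =>
      intro δ h
      apply zeroRate_of_double
      apply ih
      calc (1 : ℝ) ≤ δ * 2 ^ (n + 1) := h
        _ = 2 * δ * 2 ^ n := by ring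
  obtain ⟨n, hn⟩ := pow_unbounded_of_one_lt (1 / δ) (show (1 : ℝ) < 2 by norm_num)
  apply h n
  rw [div_lt_iff₀ hδ] at hn
  linarith

end Pool.Agent.Lib.MP_0430e4_lc.Sym
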