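import Mathlib

/-!
Fixed words of a linear code under a 2-group of coordinate permutations.
-/

namespace Pool.Agent.Lib.MP_0430e4_lc.Sym

open Module

variable {N X : Type*} [Group N] [MulAction N X]

/-- The code `C` is invariant under the action of `N` on the coordinates. -/
def Inv (N : Type*) {X : Type*} [Group N] [MulAction N X]
    (C : Submodule (ZMod 2) (X → ZMod 2)) : Prop :=
  ∀ g : N, ∀ f ∈ C, (fun x => f (g • x)) ∈ C

/-- The subcode of words of `C` fixed by `N`. -/
def fixedSub (N : Type*) {X : Type*} [Group N] [MulAction N X]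
    (C : Submodule (ZMod 2) (X → ZMod 2)) : Submodule (ZMod 2) (X → ZMod 2) where
  carrier := {f | f ∈ C ∧ ∀ g : N, ∀ x, f (g • x) = f x}
  add_mem' := by
    rintro a b ⟨ha, ha'⟩ ⟨hb, hb'⟩
    exact ⟨C.add_mem ha hb, fun g x => by simp [ha' g x, hb' g x]⟩
  zero_mem' := ⟨C.zero_mem, fun _ _ => rfl⟩
  smul_mem' := by
    rintro c a ⟨ha, ha'⟩
    exact ⟨C.smul_mem c ha, fun g x => by simp [ha' g x]⟩

lemma mem_fixedSub {C : Submodule (ZMod 2) (X → ZMod 2)} {f : X → ZMod 2} :
    f ∈ fixedSub N C ↔ f ∈ C ∧ ∀ g : N, ∀ x, f (g • x) = f x := Iff.rfl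

lemma fixedSub_le (C : Submodule (ZMod 2) (X → ZMod 2)) : fixedSub N C ≤ C :=
  fun _ hf => hf.1

lemma exists_fixed [Finite X] (hN : IsPGroup 2 N)
    (C : Submodule (ZMod 2) (X → ZMod 2)) (hC : Inv N C) (hne : C ≠ ⊥) :
    ∃ f ∈ fixedSub N C, f ≠ 0 := by
  classical
  have : Fintype X := Fintype.ofFinite X
  let act : MulAction N C :=
    { smul := fun n f => ⟨fun x => f.1 (n⁻¹ • x), hC n⁻¹ f.1 f.2⟩
      one_smul := by
        intro f
        apply Subtype.ext
        funext x
        change f.1 ((1 : N)⁻¹ • x) = f.1 x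
        simp
      mul_smul := by
        intro a b f
        apply Subtype.ext
        funext x
        change f.1 ((a * b)⁻¹ • x) = f.1 (b⁻¹ • (a⁻¹ • x))
        rw [mul_inv_rev, mul_smul] }
  have hfr : 0 < finrank (ZMod 2) C := by
    rw [Nat.pos_iff_ne_zero]
    intro h
    exact hne (Submodule.finrank_eq_zero.mp h)
  have hcard : 2 ∣ Nat.card C := by
    have h1 : Nat.card C = Nat.card (ZMod 2) ^ finrank (ZMod 2) C :=
      Module.natCard_eq_pow_finrank
    rw [h1, Nat.card_zmod]
    exact dvd_pow_self 2 hfr.ne'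
  have : Finite C := inferInstance
  have h0 : (0 : C) ∈ MulAction.fixedPoints N C := by
    intro n
    apply Subtype.ext
    rfl
  obtain ⟨b, hb, hb0⟩ := hN.exists_fixed_point_of_prime_dvd_card_of_fixed_point C hcard h0
  refine ⟨b.1, ⟨b.2, ?_⟩, ?_⟩
  · intro g x
    have := congrArg (fun z : C => z.1 x) (hb g⁻¹)
    have h2 : b.1 ((g⁻¹)⁻¹ • x) = b.1 x := this
    simpa using h2
  · intro h
    apply hb0
    apply Subtype.ext
    exact h.symm

/-- Number of coordinates in an orbit bounds the growth from fixed words to all words. -/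
lemma finrank_le_mul_fixed [Finite X] (hN : IsPGroup 2 N) (s : ℕ)
    (hs : ∀ x : X, Nat.card (MulAction.orbit N x) ≤ s) :
    ∀ (n : ℕ) (C : Submodule (ZMod 2) (X → ZMod 2)), Inv N C →
      finrank (ZMod 2) (fixedSub N C) ≤ n → finrank (ZMod 2) C ≤ s * n := by
  classical
  have : Fintype X := Fintype.ofFinite X
  intro n
  induction n with
  | zero =>
    intro C hC hf
    by_contra hcon
    have hne : C ≠ ⊥ := by
      rintro rfl
      simp at hcon
    obtain ⟨f, hf1, hf2⟩ := exists_fixed hN C hC hne
    have : fixedSub N C = ⊥ := Submodule.finrank_eq_zero.mp (Nat.le_zero.mp hf)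
    rw [this] at hf1
    exact hf2 ((Submodule.mem_bot _).mp hf1)
  | succ n ih =>
    intro C hC hf
    by_cases hne : C = ⊥
    · subst hne
      simp
    obtain ⟨f, hf1, hf2⟩ := exists_fixed hN C hC hne
    obtain ⟨x0, hx0⟩ : ∃ x, f x ≠ 0 := by
      by_contra hcon
      push Not at hcon
      exact hf2 (funext hcon)
    -- restriction to the orbit of x0
    let O : Set X := MulAction.orbit N x0
    let r : (X → ZMod 2) →ₗ[ZMod 2] (O → ZMod 2) :=
      LinearMap.funLeft (ZMod 2) (ZMod 2) (Subtype.val : O → X)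
    let C' : Submodule (ZMod 2) (X → ZMod 2) := C ⊓ LinearMap.ker r
    have hr : ∀ c, c ∈ LinearMap.ker r ↔ ∀ y ∈ O, c y = 0 := by
      intro c
      rw [LinearMap.mem_ker]
      constructor
      · intro h y hy
        exact congrFun h ⟨y, hy⟩
      · intro h
        funext y
        exact h y.1 y.2
    have hC' : Inv N C' := by
      intro g c hc
      refine ⟨hC g c hc.1, ?_⟩
      have h2 := (hr c).mp hc.2
      refine (hr _).mpr ?_
      intro y hy
      exact h2 _ (by
        have : g • y ∈ MulAction.orbit N x0 := by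
          rw [MulAction.mem_orbit_iff] at *
          obtain ⟨k, hk⟩ := hy
          exact ⟨g * k, by rw [mul_smul, hk]⟩
        exact this)
    have hlt : finrank (ZMod 2) (fixedSub N C') < finrank (ZMod 2) (fixedSub N C) := by
      apply Submodule.finrank_lt_finrank_of_lt
      refine lt_of_le_of_ne ?_ ?_
      · intro c hc
        exact ⟨hc.1.1, hc.2⟩
      · intro heq
        have : f ∈ fixedSub N C' := by rw [heq]; exact hf1
        have h3 := (hr f).mp this.1.2 x0 (MulAction.mem_orbit_self x0)
        exact hx0 h3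
    have h1 := ih C' hC' (by omega)
    have h2 : finrank (ZMod 2) C ≤ finrank (ZMod 2) C' + s := by
      let ρ : C →ₗ[ZMod 2] (O → ZMod 2) := r.domRestrict C
      have h3 := LinearMap.finrank_range_add_finrank_ker ρ
      have h4 : finrank (ZMod 2) (LinearMap.range ρ) ≤ s := by
        calc finrank (ZMod 2) (LinearMap.range ρ) ≤ finrank (ZMod 2) (O → ZMod 2) :=
              Submodule.finrank_le _
          _ = Fintype.card O := by simp
          _ = Nat.card O := (Nat.card_eq_fintype_card).symm
          _ ≤ s := hs x0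
      have h5 : finrank (ZMod 2) (LinearMap.ker ρ) ≤ finrank (ZMod 2) C' := by
        let j : LinearMap.ker ρ →ₗ[ZMod 2] C' :=
          { toFun := fun c => ⟨c.1.1, c.1.2, by
              change c.1.1 ∈ LinearMap.ker r
              exact LinearMap.mem_ker.mpr (LinearMap.mem_ker.mp c.2)⟩
            map_add' := fun _ _ => rfl
            map_smul' := fun _ _ => rfl }
        apply LinearMap.finrank_le_finrank_of_injective (f := j)
        intro a b hab
        apply Subtype.ext
        apply Subtype.ext
        exact congrArg (fun z : C' => z.1) hab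
      omega
    calc finrank (ZMod 2) C ≤ finrank (ZMod 2) C' + s := h2
      _ ≤ s * n + s := by omega
      _ = s * (n + 1) := by ring

end Pool.Agent.Lib.MP_0430e4_lc.Sym
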