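import Pool.Agent.Lib.MP_0430e4_lc.Sym.Cyclic

/-!
Linear codes invariant under a transitive 2-group whose commutator subgroup has many orbits.
-/

namespace Pool.Agent.Lib.MP_0430e4_lc.Sym

open Module

/-- A finite abelian 2-group of order at least `2 ^ (M * M)` maps onto `(Z/2)^M` or onto a cyclic
group of order `2 ^ m` with `m ≥ M`. -/
lemma abelian_quotient (M : ℕ) (Q : Type*) [CommGroup Q] [Finite Q] (hQ : IsPGroup 2 Q)
    (hcard : 2 ^ (M * M) ≤ Nat.card Q) :
    (∃ φ : Q →* Multiplicative (Fin M → ZMod 2), Function.Surjective φ) ∨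
    (∃ m : ℕ, M ≤ m ∧ ∃ φ : Q →* Multiplicative (ZMod (2 ^ m)), Function.Surjective φ) := by
  classical
  have : Fact (Nat.Prime 2) := ⟨Nat.prime_two⟩
  obtain ⟨ι, hι, n, hn, ⟨e⟩⟩ := CommGroup.equiv_prod_multiplicative_zmod_of_finite Q
  obtain ⟨N, hN⟩ := hQ.exists_card_eq
  have hne : ∀ i, NeZero (n i) := fun i => ⟨by have := hn i; omega⟩
  have hcardQ : Nat.card Q = ∏ i, n i := by
    rw [Nat.card_congr e.toEquiv, Nat.card_pi]
    apply Finset.prod_congr rfl
    intro i _
    change Nat.card (ZMod (n i)) = n i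
    exact Nat.card_zmod _
  have hpow : ∀ i, ∃ m, n i = 2 ^ m := by
    intro i
    have : n i ∣ 2 ^ N := by
      rw [← hN, hcardQ]
      exact Finset.dvd_prod_of_mem _ (Finset.mem_univ i)
    obtain ⟨m, _, hm⟩ := (Nat.dvd_prime_pow Nat.prime_two).mp this
    exact ⟨m, hm⟩
  choose m hm using hpow
  have hm0 : ∀ i, 1 ≤ m i := by
    intro i
    by_contra hcon
    have h0 : m i = 0 := by omega
    have := hn i
    rw [hm i, h0] at this
    omega
  by_cases hι' : M ≤ Fintype.card ι
  · left
    obtain ⟨g⟩ : Nonempty (Fin M ↪ ι) := by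
      rw [Function.Embedding.nonempty_iff_card_le]
      simpa using hι'
    have hdvd : ∀ i, 2 ∣ n i := by
      intro i
      rw [hm i]
      exact dvd_pow_self 2 (by have := hm0 i; omega)
    let φ0 : (∀ i, Multiplicative (ZMod (n i))) →* Multiplicative (Fin M → ZMod 2) :=
      { toFun := fun f => Multiplicative.ofAdd
          (fun k => ZMod.castHom (hdvd (g k)) (ZMod 2) (f (g k)).toAdd)
        map_one' := by
          apply Multiplicative.toAdd.injective
          funext k
          exact map_zero (ZMod.castHom (hdvd (g k)) (ZMod 2))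
        map_mul' := by
          intro a b
          apply Multiplicative.toAdd.injective
          funext k
          exact map_add (ZMod.castHom (hdvd (g k)) (ZMod 2)) _ _ }
    have hφ0 : Function.Surjective φ0 := by
      intro y
      have hs : ∀ k : Fin M, ∃ z : ZMod (n (g k)), ZMod.castHom (hdvd (g k)) (ZMod 2) z
          = y.toAdd k := fun k => ZMod.castHom_surjective (hdvd (g k)) _
      choose z hz using hs
      refine ⟨fun i => if h : ∃ k, g k = i then Multiplicative.ofAdd (h.choose_spec ▸ z h.choose)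
        else 1, ?_⟩
      apply Multiplicative.toAdd.injective
      funext k
      rw [← hz k]
      change ZMod.castHom (hdvd (g k)) (ZMod 2) (Multiplicative.toAdd
        (if h : ∃ k', g k' = g k then Multiplicative.ofAdd (h.choose_spec ▸ z h.choose) else 1))
        = _
      have hex : ∃ k', g k' = g k := ⟨k, rfl⟩
      rw [dif_pos hex]
      congr 1
      have hck : hex.choose = k := g.injective hex.choose_spec
      change (hex.choose_spec ▸ z hex.choose : ZMod (n (g k))) = z k
      have key : ∀ (k' : Fin M) (h : g k' = g k), k' = k →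
          (h ▸ z k' : ZMod (n (g k))) = z k := by
        intro k' h hk
        subst hk
        rfl
      exact key _ hex.choose_spec hck
    exact ⟨φ0.comp e.toMonoidHom, hφ0.comp e.surjective⟩
  · right
    push Not at hι'
    obtain ⟨i, hi⟩ : ∃ i, M ≤ m i := by
      by_contra hcon
      push Not at hcon
      have h1 : ∏ i, n i < 2 ^ (M * M) := by
        calc ∏ i, n i = ∏ i, 2 ^ m i := Finset.prod_congr rfl (fun i _ => hm i)
          _ = 2 ^ (∑ i, m i) := by rw [Finset.prod_pow_eq_pow_sum]
          _ < 2 ^ (M * M) := by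
            apply Nat.pow_lt_pow_right (by norm_num)
            calc ∑ i, m i ≤ ∑ _i : ι, M := Finset.sum_le_sum (fun i _ => (hcon i).le)
              _ = Fintype.card ι * M := by simp
              _ < M * M := by
                apply Nat.mul_lt_mul_of_pos_right hι'
                omega
      rw [← hcardQ] at h1
      omega
    refine ⟨m i, hi, ?_⟩
    rw [← hm i]
    refine ⟨(Pi.evalMonoidHom (fun i => Multiplicative (ZMod (n i))) i).comp e.toMonoidHom, ?_⟩
    exact (Function.surjective_eval i).comp e.surjective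

section
variable {P X : Type*} [Group P] [MulAction P X]

/-- The equivariant map attached to a homomorphism trivial on a point stabiliser. -/
lemma exists_cov {E : Type*} [AddCommGroup E] (htr : MulAction.IsPretransitive P X) (x0 : X)
    (θ : P → E) (h1 : θ 1 = 0) (hmul : ∀ a b, θ (a * b) = θ a + θ b)
    (hs : Function.Surjective θ) (hst : ∀ g : P, g • x0 = x0 → θ g = 0) :
    ∃ p : X → E, Cov P X E θ p := by
  have hinv : ∀ g, θ g⁻¹ = - θ g := by
    intro g
    have := hmul g⁻¹ g
    rw [inv_mul_cancel, h1] at this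
    exact eq_neg_of_add_eq_zero_left this.symm
  have hex : ∀ x : X, ∃ g : P, g • x0 = x := fun x => htr.exists_smul_eq x0 x
  choose γ hγ using hex
  have hγ' : ∀ g : P, θ (γ (g • x0)) = θ g := by
    intro g
    have h2 : (g⁻¹ * γ (g • x0)) • x0 = x0 := by
      rw [mul_smul, hγ, inv_smul_smul]
    have h3 := hst _ h2
    rw [hmul, hinv] at h3
    exact (neg_add_eq_zero.mp h3).symm
  refine ⟨fun x => θ (γ x), h1, hmul, hs, ?_, ?_⟩
  · intro g x
    have : g • x = (g * γ x) • x0 := by rw [mul_smul, hγ]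
    rw [this, hγ', hmul]
  · intro x y hxy
    refine ⟨γ y * (γ x)⁻¹, ?_, ?_⟩
    · rw [hmul, hinv]
      change θ (γ x) = θ (γ y) at hxy
      rw [hxy, add_neg_cancel]
    · have : (γ x)⁻¹ • x = x0 := by rw [inv_smul_eq_iff, hγ]
      rw [mul_smul, this, hγ]

end

/-- **Main theorem.** -/
theorem main (ε δ : ℝ) (hε : 0 < ε) (hδ : 0 < δ) :
    ∃ N : ℕ, ∀ (P X : Type*) [Group P] [Finite P] [Finite X] [MulAction P X],
      IsPGroup 2 P → MulAction.IsPretransitive P X →
      N ≤ Nat.card (MulAction.orbitRel.Quotient (commutator P) X) →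
      ∀ C : Submodule (ZMod 2) (X → ZMod 2), Inv P C → Wt δ C →
        (finrank (ZMod 2) C : ℝ) < ε * Nat.card X := by
  classical
  obtain ⟨K, hK⟩ := zeroRate hδ (ε / 2) (by positivity)
  obtain ⟨t, ht⟩ := pow_unbounded_of_one_lt (1 / δ) (show (1 : ℝ) < 2 by norm_num)
  have ht' : 1 ≤ δ * 2 ^ t := by
    rw [div_lt_iff₀ hδ] at ht
    linarith
  obtain ⟨a, ha⟩ := pow_unbounded_of_one_lt (2 ^ t / (ε / 2)) (show (1 : ℝ) < 2 by norm_num)
  have ha' : (2 : ℝ) ^ t < ε / 2 * 2 ^ a := by
    rw [div_lt_iff₀ (by positivity)] at ha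
    linarith
  let M := max K (max t a)
  refine ⟨2 ^ (M * M), ?_⟩
  intro P X _ _ _ _ hP htr hN C hC hW
  have hXne : Nonempty X := by
    by_contra hcon
    rw [not_nonempty_iff] at hcon
    have : Nat.card (MulAction.orbitRel.Quotient (commutator P) X) = 0 := by
      have : IsEmpty (MulAction.orbitRel.Quotient (commutator P) X) := by
        constructor
        intro q
        exact hcon.false q.out
      exact Nat.card_of_isEmpty
    rw [this] at hN
    have : 0 < 2 ^ (M * M) := by positivity
    omega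
  obtain ⟨x0⟩ := hXne
  have hXne : Nonempty X := ⟨x0⟩
  have hXpos : (0 : ℝ) < Nat.card X := by exact_mod_cast Nat.card_pos
  -- the abelian quotient
  let B : Subgroup (Abelianization P) :=
    (MulAction.stabilizer P x0).map (Abelianization.of)
  let Q := Abelianization P ⧸ B
  let θ0 : P →* Q := (QuotientGroup.mk' B).comp Abelianization.of
  have hθ0 : Function.Surjective θ0 :=
    (QuotientGroup.mk'_surjective B).comp (QuotientGroup.mk'_surjective _)
  have hθ0st : ∀ g : P, g • x0 = x0 → θ0 g = 1 := by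
    intro g hg
    change (QuotientGroup.mk' B) (Abelianization.of g) = 1
    rw [QuotientGroup.mk'_apply, QuotientGroup.eq_one_iff]
    exact ⟨g, hg, rfl⟩
  have hQ : IsPGroup 2 Q := hP.of_surjective θ0 hθ0
  have : Finite Q := Finite.of_surjective θ0 hθ0
  have hQcard : 2 ^ (M * M) ≤ Nat.card Q := by
    refine hN.trans ?_
    have hex : ∀ x : X, ∃ g : P, g • x0 = x := fun x => htr.exists_smul_eq x0 x
    choose γ hγ using hex
    refine Nat.card_le_card_of_injective
      (fun ω : MulAction.orbitRel.Quotient (commutator P) X => θ0 (γ ω.out)) ?_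
    intro ω ω' h
    change θ0 (γ ω.out) = θ0 (γ ω'.out) at h
    set g := γ ω.out with hg
    set g' := γ ω'.out with hg'
    have h1 : θ0 (g⁻¹ * g') = 1 := by
      rw [map_mul, map_inv, h, inv_mul_cancel]
    have h2 : Abelianization.of (g⁻¹ * g') ∈ B := by
      change (QuotientGroup.mk' B) (Abelianization.of (g⁻¹ * g')) = 1 at h1
      rwa [QuotientGroup.mk'_apply, QuotientGroup.eq_one_iff] at h1
    obtain ⟨k, hk, hk2⟩ := h2
    have hk1 : k • x0 = x0 := hk
    have h3 : g⁻¹ * g' * k⁻¹ ∈ commutator P := by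
      have h4 : Abelianization.of (g⁻¹ * g' * k⁻¹) = 1 := by
        rw [map_mul, map_inv, hk2, mul_inv_cancel]
      rw [← Abelianization.ker_of P, MonoidHom.mem_ker]
      exact h4
    have h5 : g * (g⁻¹ * g' * k⁻¹) * g⁻¹ ∈ commutator P :=
      (inferInstance : (commutator P).Normal).conj_mem _ h3 g
    have h6 : (g * (g⁻¹ * g' * k⁻¹) * g⁻¹) • ω.out = ω'.out := by
      have e1 : g⁻¹ • ω.out = x0 := by rw [inv_smul_eq_iff, hg, hγ]
      have e2 : k⁻¹ • x0 = x0 := by rw [inv_smul_eq_iff, hk1]
      rw [mul_smul, e1]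
      have e3 : g * (g⁻¹ * g' * k⁻¹) = g' * k⁻¹ := by group
      rw [e3, mul_smul, e2, hg', hγ]
    have h7 : (MulAction.orbitRel (commutator P) X).r ω'.out ω.out :=
      ⟨⟨_, h5⟩, h6⟩
    have h8 : (Quotient.mk _ ω'.out : MulAction.orbitRel.Quotient (commutator P) X) =
        Quotient.mk _ ω.out := Quotient.sound h7
    rw [Quotient.out_eq, Quotient.out_eq] at h8
    exact h8.symm
  -- conclusion from a quotient
  have conclude : ∀ (E : Type) [AddCommGroup E] [Finite E] (φ : Q →* Multiplicative E),
      Function.Surjective φ →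
      (∀ C' : Submodule (ZMod 2) (E → ZMod 2), TI C' → Wt δ C' →
        (finrank (ZMod 2) C' : ℝ) ≤ ε / 2 * Nat.card E) →
      (finrank (ZMod 2) C : ℝ) < ε * Nat.card X := by
    intro E _ _ φ hφ hE
    obtain ⟨p, hp⟩ := exists_cov htr x0 (fun g => (φ (θ0 g)).toAdd)
      (by simp) (by intro a b; simp)
      (fun e => by
        obtain ⟨g, hg⟩ := (hφ.comp hθ0) (Multiplicative.ofAdd e)
        refine ⟨g, ?_⟩
        have : φ (θ0 g) = Multiplicative.ofAdd e := hg
        simp [this])
      (by
        intro g hg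
        simp [hθ0st g hg])
    have h1 := hp.finrank_mul_le hP C hC
    have h2 := hE (pb p C) (hp.ti_pb C hC) (hp.wt_pb hW)
    have h3 : (finrank (ZMod 2) C : ℝ) * Nat.card E ≤ Nat.card X * finrank (ZMod 2) (pb p C) := by
      exact_mod_cast h1
    have : Nonempty E := ⟨0⟩
    have hEpos : (0 : ℝ) < Nat.card E := by exact_mod_cast Nat.card_pos
    have h4 : (finrank (ZMod 2) C : ℝ) * Nat.card E ≤ (ε / 2 * Nat.card X) * Nat.card E := by
      calc (finrank (ZMod 2) C : ℝ) * Nat.card E ≤ Nat.card X * finrank (ZMod 2) (pb p C) := h3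
        _ ≤ Nat.card X * (ε / 2 * Nat.card E) := by gcongr
        _ = _ := by ring
    have h5 := le_of_mul_le_mul_right h4 hEpos
    have h6 : 0 < ε * Nat.card X := by positivity
    linarith
  rcases abelian_quotient M Q hQ hQcard with ⟨φ, hφ⟩ | ⟨m, hm, φ, hφ⟩
  · refine conclude _ φ hφ ?_
    intro C' hT' hW'
    have := hK M (le_max_left _ _) C' hT' hW'
    rw [card_cube]
    push_cast
    exact this
  · have : NeZero (2 ^ m) := ⟨by positivity⟩
    refine conclude _ φ hφ ?_
    intro C' hT' hW'
    have htm : t ≤ m := (le_trans (le_max_left _ _) (le_max_right _ _)).trans hm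
    have ham : a ≤ m := (le_trans (le_max_right _ _) (le_max_right _ _)).trans hm
    have h1 := cyclic_bound ht' htm C' hT' hW'
    have h2 : (finrank (ZMod 2) C' : ℝ) < 2 ^ t := by exact_mod_cast h1
    have h3 : (2 : ℝ) ^ a ≤ 2 ^ m := pow_le_pow_right₀ (by norm_num) ham
    rw [Nat.card_zmod]
    push_cast
    have h4 : ε / 2 * 2 ^ a ≤ ε / 2 * 2 ^ m := by gcongr
    linarith

end Pool.Agent.Lib.MP_0430e4_lc.Sym
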